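import Pool.Agent.H.MP_9e6215_co.Defs

namespace Pool.Agent.H.MP_9e6215_co

open Finset

open Classical in
noncomputable def ind (p : Prop) : ℝ := if p then 1 else 0

theorem ind_nonneg (p : Prop) : 0 ≤ ind p := by unfold ind; split_ifs <;> norm_num

theorem ind_pos {p : Prop} (h : p) : ind p = 1 := if_pos h

theorem ind_neg {p : Prop} (h : ¬ p) : ind p = 0 := if_neg h

theorem ind_congr {p q : Prop} (h : p ↔ q) : ind p = ind q := by rw [propext h]

def Disc (f : ℕ → ℝ) (δ D : ℝ) : Prop :=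
  ∀ n0 n : ℕ, |∑ r ∈ range n, f (n0 + r) - δ * n| ≤ D

theorem Disc.add {f g : ℕ → ℝ} {δ D δ' D' : ℝ} (h : Disc f δ D) (h' : Disc g δ' D') :
    Disc (fun n => f n + g n) (δ + δ') (D + D') := by
  intro n0 n
  have h1 := abs_le.1 (h n0 n)
  have h2 := abs_le.1 (h' n0 n)
  rw [sum_add_distrib, abs_le]
  constructor <;> nlinarith [h1.1, h1.2, h2.1, h2.2]

theorem Disc.shift {f : ℕ → ℝ} {δ D : ℝ} (h : Disc f δ D) (c : ℕ) :
    Disc (fun n => f (n + c)) δ D := by
  intro n0 n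
  have := h (n0 + c) n
  simpa only [add_right_comm n0 c] using this

theorem window (f : ℕ → ℝ) (n0 n : ℕ) :
    ∑ r ∈ range n, f (n0 + r) = ∑ r ∈ range (n0 + n), f r - ∑ r ∈ range n0, f r := by
  rw [sum_range_add]; ring

theorem disc_block {f : ℕ → ℝ} (hf : ∀ n, 0 ≤ f n) {K : ℕ} (hK : 0 < K) {κ : ℝ}
    (h : ∀ j, ∑ r ∈ range K, f (K * j + r) = κ) : Disc f (κ / K) (2 * κ) := by
  have hκ : 0 ≤ κ := h 0 ▸ sum_nonneg fun r _ => hf _
  have h1 : ∀ j, ∑ r ∈ range (K * j), f r = κ * j := by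
    intro j
    induction j with
    | zero => simp
    | succ j ih => rw [Nat.mul_succ, sum_range_add, ih, h]; push_cast; ring
  have hm : ∀ {n n'}, n ≤ n' → ∑ r ∈ range n, f r ≤ ∑ r ∈ range n', f r := fun hn =>
    sum_le_sum_of_subset_of_nonneg (range_mono hn) fun _ _ _ => hf _
  have h2 : ∀ n, |∑ r ∈ range n, f r - κ / K * n| ≤ κ := by
    intro n
    have a1 := hm (Nat.mul_div_le n K)
    have a2 := hm (Nat.lt_mul_div_succ n hK).le
    rw [h1] at a1 a2
    have hK' : (0 : ℝ) < K := by exact_mod_cast hK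
    have b1 : ((n / K : ℕ) : ℝ) ≤ (n : ℝ) / K := Nat.cast_div_le
    have b2 : (n : ℝ) / K ≤ ((n / K + 1 : ℕ) : ℝ) := by
      rw [div_le_iff₀ hK', mul_comm]
      exact_mod_cast (Nat.lt_mul_div_succ n hK).le
    have e : κ / K * n = κ * ((n : ℝ) / K) := by ring
    push_cast at a2 b2
    rw [e, abs_le]
    constructor <;> nlinarith [mul_le_mul_of_nonneg_left b1 hκ, mul_le_mul_of_nonneg_left b2 hκ]
  intro n0 n
  have a1 := abs_le.1 (h2 n0)
  have a2 := abs_le.1 (h2 (n0 + n))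
  push_cast at a2
  rw [window, abs_le]
  constructor <;> nlinarith [a1.1, a1.2, a2.1, a2.2]

theorem disc_dil {f g : ℕ → ℝ} {K c : ℕ} (hc : c < K) {δ D : ℝ} (hδ : 0 ≤ δ)
    (hf : ∀ n, f n = if n % K = c then g (n / K) else 0) (h : Disc g δ D) :
    Disc f (δ / K) (D + δ) := by
  have hK : 0 < K := by omega
  let μ : ℕ → ℕ := fun n => (n + (K - 1 - c)) / K
  have hμ : ∀ n, μ (n + 1) = if n % K = c then μ n + 1 else μ n := by
    intro n
    have e1 := Nat.div_add_mod n K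
    have e2 := Nat.mod_lt n hK
    have e3 : ∀ s, (n + s) / K = n / K + (n % K + s) / K := by
      intro s
      conv_lhs => rw [← e1, add_assoc, Nat.mul_add_div hK]
    simp only [μ]
    rw [add_assoc, e3, e3]
    have d0 : ∀ y, y < K → y / K = 0 := fun y hy => Nat.div_eq_of_lt hy
    have d1 : ∀ y, K ≤ y → y < 2 * K → y / K = 1 := fun y h1 h2 =>
      Nat.div_eq_of_lt_le (by omega) (by omega)
    split_ifs with hh
    · rw [d1 (n % K + (1 + (K - 1 - c))) (by omega) (by omega), d0 (n % K + (K - 1 - c)) (by omega)]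
    · rcases lt_or_gt_of_ne hh with h1 | h1
      · rw [d0 (n % K + (1 + (K - 1 - c))) (by omega), d0 (n % K + (K - 1 - c)) (by omega)]
      · rw [d1 (n % K + (1 + (K - 1 - c))) (by omega) (by omega),
          d1 (n % K + (K - 1 - c)) (by omega) (by omega)]
  have hμ' : ∀ n, n % K = c → μ n = n / K := by
    intro n hn
    have e1 := Nat.div_add_mod n K
    simp only [μ]
    conv_lhs => rw [← e1, add_assoc, Nat.mul_add_div hK, Nat.div_eq_of_lt (by omega : n % K + (K - 1 - c) < K)]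
    rfl
  have h1 : ∀ n, ∑ r ∈ range n, f r = ∑ r ∈ range (μ n), g r := by
    intro n
    induction n with
    | zero => simp [μ, Nat.div_eq_of_lt (by omega : K - 1 - c < K)]
    | succ n ih =>
      rw [sum_range_succ, ih, hμ, hf]
      split_ifs with hh
      · rw [sum_range_succ, hμ' n hh]
      · simp
  intro n0 n
  obtain ⟨m, hm⟩ : ∃ m, μ (n0 + n) = μ n0 + m :=
    Nat.exists_eq_add_of_le (Nat.div_le_div_right (by omega))
  rw [window, h1, h1, hm, ← window]
  have a1 := abs_le.1 (h (μ n0) m)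
  have hK' : (0 : ℝ) < K := by exact_mod_cast hK
  have b1 : K * μ n0 ≤ n0 + (K - 1 - c) := Nat.mul_div_le _ _
  have b2 : n0 + (K - 1 - c) < K * (μ n0 + 1) := Nat.lt_mul_div_succ _ hK
  have b3 : K * μ (n0 + n) ≤ n0 + n + (K - 1 - c) := Nat.mul_div_le _ _
  have b4 : n0 + n + (K - 1 - c) < K * (μ (n0 + n) + 1) := Nat.lt_mul_div_succ _ hK
  rw [hm] at b3 b4
  have c1 : K * m ≤ n + K := by nlinarith
  have c2 : n ≤ K * m + K := by nlinarith
  have c3 : (m : ℝ) ≤ n / K + 1 := by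
    rw [← sub_le_iff_le_add, le_div_iff₀ hK']
    have : (K : ℝ) * m ≤ n + K := by exact_mod_cast c1
    nlinarith
  have c4 : (n : ℝ) / K ≤ m + 1 := by
    rw [div_le_iff₀ hK']
    have : (n : ℝ) ≤ K * m + K := by exact_mod_cast c2
    nlinarith
  have e : δ / K * n = δ * ((n : ℝ) / K) := by ring
  rw [e, abs_le]
  constructor <;> nlinarith [mul_le_mul_of_nonneg_left c3 hδ, mul_le_mul_of_nonneg_left c4 hδ,
    a1.1, a1.2]

def Reg (S : ℕ → Prop) (b D : ℝ) : Prop :=
  ∃ δ, 0 ≤ δ ∧ δ ≤ b ∧ Disc (fun n => ind (S n)) δ (D - 2 * δ)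

theorem Reg.congr {S T : ℕ → Prop} {b D : ℝ} (h : Reg S b D) (e : ∀ n, T n ↔ S n) :
    Reg T b D := by
  obtain rfl : T = S := funext fun n => propext (e n)
  exact h

theorem Reg.mono {S : ℕ → Prop} {b D b' D' : ℝ} (h : Reg S b D) (hb : b ≤ b') (hD : D ≤ D') :
    Reg S b' D' := by
  obtain ⟨δ, h1, h2, h3⟩ := h
  exact ⟨δ, h1, h2.trans hb, fun n0 n => (h3 n0 n).trans (by linarith)⟩

theorem reg_empty {S : ℕ → Prop} (h : ∀ n, ¬ S n) : Reg S 0 0 :=
  ⟨0, le_rfl, le_rfl, fun n0 n => by simp [ind_neg (h _)]⟩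

theorem reg_univ : Reg (fun _ => True) 1 2 :=
  ⟨1, zero_le_one, le_rfl, fun n0 n => by simp [ind_pos]⟩

theorem Reg.shift {S : ℕ → Prop} {b D : ℝ} (h : Reg S b D) (c : ℕ) :
    Reg (fun n => S (n + c)) b D := by
  obtain ⟨δ, h1, h2, h3⟩ := h
  exact ⟨δ, h1, h2, h3.shift c⟩

theorem Reg.dil {S : ℕ → Prop} {D : ℝ} (h : Reg S 1 D) {K c : ℕ} (hK : 2 ≤ K) (hc : c < K) :
    Reg (fun n => n % K = c ∧ S (n / K)) (1 / 2) D := by
  obtain ⟨δ, h1, h2, h3⟩ := h
  have hK' : (2 : ℝ) ≤ K := by exact_mod_cast hK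
  have h4 : δ / K ≤ δ / 2 := div_le_div_of_nonneg_left h1 two_pos hK'
  refine ⟨δ / K, by positivity, by linarith, fun n0 n => ?_⟩
  have h5 : D - 2 * δ + δ ≤ D - 2 * (δ / K) := by linarith
  refine (disc_dil (f := fun n => ind (n % K = c ∧ S (n / K))) hc h1 (fun n => ?_) h3 n0 n).trans h5
  split_ifs with hh
  · exact ind_congr (by simp [hh])
  · exact ind_neg (by simp [hh])

theorem reg_par {S : ℕ → Prop} {D D' : ℝ} (h : Reg (fun n => n % 2 = 0 ∧ S n) (1 / 2) D)
    (h' : Reg (fun n => n % 2 = 1 ∧ S n) (1 / 2) D') : Reg S 1 (D + D') := by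
  obtain ⟨δ, h1, h2, h3⟩ := h
  obtain ⟨δ', h1', h2', h3'⟩ := h'
  refine ⟨δ + δ', by linarith, by linarith, fun n0 n => ?_⟩
  have := h3.add h3' n0 n
  have e : ∀ n, ind (n % 2 = 0 ∧ S n) + ind (n % 2 = 1 ∧ S n) = ind (S n) := by
    intro n
    rcases Nat.mod_two_eq_zero_or_one n with e | e <;> simp [e, ind_neg]
  simp only [e] at this
  exact this.trans (by linarith)

theorem sum_pair (f : ℕ → ℝ) (K : ℕ) :
    ∑ r ∈ range (2 * K), f r = ∑ r ∈ range K, (f (2 * r) + f (2 * r + 1)) := by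
  induction K with
  | zero => simp
  | succ K ih => rw [Nat.mul_succ, sum_range_succ, sum_range_succ, ih, sum_range_succ]; ring

theorem block_pair {f g : ℕ → ℝ} {κ : ℝ} (h : ∀ n, f (2 * n) + f (2 * n + 1) = κ * g n)
    {K : ℕ} (hg : ∀ j, ∑ r ∈ range K, g (K * j + r) = 1) (j : ℕ) :
    ∑ r ∈ range (2 * K), f (2 * K * j + r) = κ := by
  rw [sum_pair]
  have : ∀ r, f (2 * K * j + 2 * r) + f (2 * K * j + (2 * r + 1)) = κ * g (K * j + r) := by
    intro r
    rw [← h]
    congr 2 <;> ring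
  simp only [this]
  rw [← mul_sum, hg, mul_one]

def E : ℕ → ℕ → Bool
  | 0, n => decide (n % 2 = 1)
  | k + 1, n => xor (E k n) (E k (n / 2))

theorem E_odd (k n : ℕ) : E k (2 * n + 1) = !E k (2 * n) := by
  induction k with
  | zero => simp [E]
  | succ k ih =>
    have : (2 * n + 1) / 2 = 2 * n / 2 := by omega
    simp [E, ih, this]

theorem E_half (k n : ℕ) : E k (n / 2) = xor (E (k + 1) n) (E k n) := by
  simp only [E]
  cases E k n <;> cases E k (n / 2) <;> rfl

theorem win_succ (i T n : ℕ) (v : ℕ → Bool) :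
    (∀ k < T + 1, E (i + k) n = v k) ↔
      E i n = v 0 ∧ ∀ k < T, E (i + k) (n / 2) = xor (v (k + 1)) (v k) := by
  constructor
  · intro h
    refine ⟨h 0 (by omega), fun k hk => ?_⟩
    rw [E_half, ← h k (by omega), ← h (k + 1) (by omega)]
    rfl
  · rintro ⟨h0, h⟩ k hk
    induction k with
    | zero => exact h0
    | succ k ih =>
      have h1 := h k (by omega)
      have h2 := ih (by omega)
      show xor (E (i + k) n) (E (i + k) (n / 2)) = _
      rw [h1, h2]
      cases v k <;> cases v (k + 1) <;> rfl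

theorem ind_flip (b c : Bool) (p : Prop) : ind (b = c ∧ p) + ind ((!b) = c ∧ p) = 1 * ind p := by
  cases b <;> cases c <;> simp [ind_neg]

theorem pascal (i T : ℕ) : ∀ (v : ℕ → Bool) (j : ℕ),
    ∑ r ∈ range (2 ^ T), ind (∀ k < T, E (i + k) (2 ^ T * j + r) = v k) = 1 := by
  induction T with
  | zero => intro v j; simp [ind_pos]
  | succ T ih =>
    intro v j
    rw [pow_succ']
    refine block_pair (f := fun n => ind (∀ k < T + 1, E (i + k) n = v k))
      (g := fun n => ind (∀ k < T, E (i + k) n = xor (v (k + 1)) (v k))) (fun n => ?_)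
      (ih _) j
    have e1 : 2 * n / 2 = n := by omega
    have e2 : (2 * n + 1) / 2 = n := by omega
    rw [ind_congr (win_succ i T _ v), ind_congr (win_succ i T _ v), e1, e2, E_odd]
    exact ind_flip _ _ _

theorem E_mod (T : ℕ) : ∀ n n' : ℕ, (∀ k < T, E k n = E k n') ↔ n % 2 ^ T = n' % 2 ^ T := by
  induction T with
  | zero => intro n n'; simp [Nat.mod_one]
  | succ T ih =>
    intro n n'
    have h := win_succ 0 T n fun k => E k n'
    simp only [zero_add, ← E_half] at h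
    rw [h, ih, pow_succ', Nat.mod_mul, Nat.mod_mul]
    simp only [E, decide_eq_decide]
    omega

end Pool.Agent.H.MP_9e6215_co
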