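import Pool.Agent.H.MP_9e6215_co.A

namespace Pool.Agent.H.MP_9e6215_co

open Finset

def mm (a : ℕ) : ℕ := 2 ^ (a - 1) - 1

def β (a q : ℕ) : Bool :=
  if _h : q = 0 then false
  else if min (q % 2 ^ a) (2 ^ a - 1 - q % 2 ^ a) < mm a then
    E (min (q % 2 ^ a) (2 ^ a - 1 - q % 2 ^ a)) (q / 2 ^ a / 2)
  else xor (decide (q / 2 ^ a % 2 = 1)) (β (mm a) (q / 2 ^ a / 2))
termination_by q
decreasing_by
  have := Nat.div_le_self q (2 ^ a)
  omega

def bit (m N k : ℕ) : Bool :=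
  if k < m then E k (N / 2) else xor (decide (N % 2 = 1)) (β m (N / 2))

theorem mm_spec {a : ℕ} (ha : 3 ≤ a) : 2 ^ a = 2 * mm a + 2 ∧ 3 ≤ mm a := by
  obtain ⟨b, rfl⟩ : ∃ b, a = b + 3 := ⟨a - 3, by omega⟩
  have : 0 < 2 ^ b := by positivity
  simp only [mm, show b + 3 - 1 = b + 2 by omega, pow_succ]
  omega

theorem β_at {a : ℕ} (ha : 3 ≤ a) (N i : ℕ) (hi : i < 2 ^ a) :
    β a (2 ^ a * N + i) = bit (mm a) N (min i (2 ^ a - 1 - i)) := by
  have hp : 0 < 2 ^ a := by positivity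
  have e1 : (2 ^ a * N + i) / 2 ^ a = N := by
    rw [Nat.mul_add_div hp, Nat.div_eq_of_lt hi, add_zero]
  have e2 : (2 ^ a * N + i) % 2 ^ a = i := by rw [Nat.mul_add_mod, Nat.mod_eq_of_lt hi]
  rw [β, e1, e2]
  split_ifs with h0 h1
  · obtain rfl : i = 0 := by omega
    obtain rfl : N = 0 := by
      rcases Nat.eq_zero_or_pos N with h | h
      · exact h
      · have := Nat.mul_pos hp h
        omega
    have := (mm_spec ha).2
    simp [bit, E, show 0 < mm a by omega]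
  · simp only [bit, if_pos h1]
  · simp only [bit, if_neg h1]

def S (a o t : ℕ) (v : ℕ → Bool) (N : ℕ) : Prop := ∀ r < t, β a (2 ^ a * N + (o + r)) = v r

theorem S_iff {a o t : ℕ} {v : ℕ → Bool} (ha : 3 ≤ a) {M : ℕ} (hM : S a o t v M) (N : ℕ) :
    S a o t v N ↔ ∀ j i, i < 2 ^ a → o ≤ 2 ^ a * j + i → 2 ^ a * j + i < o + t →
      bit (mm a) (N + j) (min i (2 ^ a - 1 - i)) = bit (mm a) (M + j) (min i (2 ^ a - 1 - i)) := by
  have hp : 0 < 2 ^ a := by positivity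
  have key : ∀ N j i, i < 2 ^ a → β a (2 ^ a * N + (2 ^ a * j + i)) =
      bit (mm a) (N + j) (min i (2 ^ a - 1 - i)) := by
    intro N j i hi
    rw [← β_at ha _ _ hi, mul_add, add_assoc]
  constructor
  · intro h j i hi h1 h2
    obtain ⟨r, hr⟩ := Nat.exists_eq_add_of_le h1
    rw [← key N j i hi, ← key M j i hi, hr, h r (by omega), hM r (by omega)]
  · intro h r hr
    have e := Nat.div_add_mod (o + r) (2 ^ a)
    have hi := Nat.mod_lt (o + r) hp
    rw [← hM r hr, ← e, key _ _ _ hi, key _ _ _ hi]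
    exact h _ _ hi (by omega) (by omega)

theorem reg_block {P : ℕ → Prop} {T : ℕ} {κ : ℝ} (hκ : κ ≤ 2) (h0 : 0 ≤ κ)
    (h : ∀ j, ∑ r ∈ range (2 * 2 ^ T), ind (P (2 * 2 ^ T * j + r)) = κ) : Reg P 1 6 := by
  have hK : (2 : ℝ) ≤ ((2 * 2 ^ T : ℕ) : ℝ) := by
    have : 0 < 2 ^ T := by positivity
    exact_mod_cast (by omega : 2 ≤ 2 * 2 ^ T)
  have h1 : κ / ((2 * 2 ^ T : ℕ) : ℝ) ≤ 1 := by
    rw [div_le_one (by linarith)]; linarith
  refine ⟨_, by positivity, h1, fun n0 n => ?_⟩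
  exact (disc_block (f := fun n => ind (P n)) (fun _ => ind_nonneg _) (by positivity) h n0 n).trans
    (by linarith)

theorem reg_bit (m k1 T : ℕ) (w : ℕ → Bool) (h : k1 + T ≤ m + 1) (h' : k1 ≤ m) :
    Reg (fun N => ∀ k < T, bit m N (k1 + k) = w k) 1 6 := by
  by_cases hc : k1 + T ≤ m
  · refine reg_block (T := T) le_rfl zero_le_two (block_pair
      (f := fun N => ind (∀ k < T, bit m N (k1 + k) = w k))
      (g := fun n => ind (∀ k < T, E (k1 + k) n = w k)) (fun n => ?_) (pascal k1 T w))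
    have e : ∀ N, (∀ k < T, bit m N (k1 + k) = w k) ↔ ∀ k < T, E (k1 + k) (N / 2) = w k :=
      fun N => forall₂_congr fun k hk => by rw [bit, if_pos (by omega)]
    rw [ind_congr (e _), ind_congr (e _), show 2 * n / 2 = n by omega,
      show (2 * n + 1) / 2 = n by omega]
    ring
  · obtain ⟨T, rfl⟩ : ∃ T', T = T' + 1 := ⟨T - 1, by omega⟩
    refine reg_block (T := T) one_le_two zero_le_one (block_pair
      (f := fun N => ind (∀ k < T + 1, bit m N (k1 + k) = w k))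
      (g := fun n => ind (∀ k < T, E (k1 + k) n = w k)) (fun n => ?_) (pascal k1 T w))
    have e : ∀ N, (∀ k < T + 1, bit m N (k1 + k) = w k) ↔
        xor (decide (N % 2 = 1)) (β m (N / 2)) = w T ∧ ∀ k < T, E (k1 + k) (N / 2) = w k := by
      intro N
      rw [Nat.forall_lt_succ_right, and_comm]
      refine and_congr (by rw [bit, if_neg (by omega)]) ?_
      exact forall₂_congr fun k hk => by rw [bit, if_pos (by omega)]
    rw [ind_congr (e _), ind_congr (e _), show 2 * n / 2 = n by omega,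
      show (2 * n + 1) / 2 = n by omega, show 2 * n % 2 = 0 by omega,
      show (2 * n + 1) % 2 = 1 by omega]
    simpa using ind_flip (β m n) (w T) _

theorem case1 {a o t : ℕ} (v : ℕ → Bool) (ha : 3 ≤ a) (h : o + t ≤ 2 ^ a) :
    Reg (S a o t v) 1 6 := by
  by_cases hne : ∃ M, S a o t v M
  swap
  · exact (reg_empty fun n hn => hne ⟨n, hn⟩).mono zero_le_one (by norm_num)
  obtain ⟨M, hM⟩ := hne
  obtain ⟨hL, hm⟩ := mm_spec ha
  obtain ⟨k1, T, h1, h2, h3⟩ : ∃ k1 T, k1 + T ≤ mm a + 1 ∧ k1 ≤ mm a ∧ ∀ k, (k1 ≤ k ∧ k < k1 + T) ↔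
      (k ≤ mm a ∧ ((o ≤ k ∧ k < o + t) ∨ (o ≤ 2 * mm a + 1 - k ∧ 2 * mm a + 1 - k < o + t))) := by
    rcases Nat.eq_zero_or_pos t with rfl | ht
    · exact ⟨0, 0, by omega, by omega, fun k => by omega⟩
    by_cases c1 : o + t ≤ mm a + 1
    · exact ⟨o, t, by omega, by omega, fun k => by omega⟩
    by_cases c2 : mm a + 1 ≤ o
    · exact ⟨2 * mm a + 2 - (o + t), t, by omega, by omega, fun k => by omega⟩
    · exact ⟨min o (2 * mm a + 2 - (o + t)), mm a + 1 - min o (2 * mm a + 2 - (o + t)),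
        by omega, by omega, fun k => by omega⟩
  refine (reg_bit (mm a) k1 T (fun k => bit (mm a) M (k1 + k)) h1 h2).congr fun N => ?_
  rw [S_iff ha hM]
  constructor
  · intro H k hk
    obtain ⟨c0, c | c⟩ := (h3 (k1 + k)).1 ⟨by omega, by omega⟩
    · have := H 0 (k1 + k) (by omega) (by omega) (by omega)
      rwa [show min (k1 + k) (2 ^ a - 1 - (k1 + k)) = k1 + k by omega] at this
    · have := H 0 (2 * mm a + 1 - (k1 + k)) (by omega) (by omega) (by omega)
      rwa [show min (2 * mm a + 1 - (k1 + k)) (2 ^ a - 1 - (2 * mm a + 1 - (k1 + k))) = k1 + k by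
        omega] at this
  · intro H j i hi c1 c2
    obtain rfl : j = 0 := by
      by_contra hj
      have := Nat.mul_le_mul_left (2 ^ a) (Nat.one_le_iff_ne_zero.2 hj)
      omega
    obtain ⟨c3, c4⟩ := (h3 (min i (2 ^ a - 1 - i))).2 (by omega)
    obtain ⟨k, hk⟩ := Nat.exists_eq_add_of_le c3
    rw [hk]
    exact H k (by omega)

theorem mod_two_mul (N M K : ℕ) :
    N % (2 * K) = M % (2 * K) ↔ N % 2 = M % 2 ∧ N / 2 % K = M / 2 % K := by
  rw [Nat.mod_mul, Nat.mod_mul]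
  omega

theorem half_add {N M : ℕ} (h : N % 2 = M % 2) (j K : ℕ) :
    (N + j) / 2 % K = (M + j) / 2 % K ↔ N / 2 % K = M / 2 % K := by
  rw [show (N + j) / 2 = N / 2 + (M % 2 + j) / 2 by omega,
    show (M + j) / 2 = M / 2 + (M % 2 + j) / 2 by omega]
  exact ⟨fun h => Nat.ModEq.add_right_cancel' _ h, fun h => Nat.ModEq.add_right _ h⟩

theorem pre_mod {a o t : ℕ} {v : ℕ → Bool} (ha : 3 ≤ a) {M N : ℕ} (hM : S a o t v M)
    (hN : S a o t v N) {j T : ℕ} (hT : T ≤ mm a) (h1 : o ≤ 2 ^ a * j) (h2 : 2 ^ a * j + T ≤ o + t) :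
    (N + j) / 2 % 2 ^ T = (M + j) / 2 % 2 ^ T := by
  obtain ⟨hL, hm⟩ := mm_spec ha
  refine (E_mod _ _ _).1 fun k hk => ?_
  have := (S_iff ha hM N).1 hN j k (by omega) (by omega) (by omega)
  rwa [show min k (2 ^ a - 1 - k) = k by omega, bit, bit, if_pos (by omega),
    if_pos (by omega)] at this

theorem suf_mod {a o t : ℕ} {v : ℕ → Bool} (ha : 3 ≤ a) {M N : ℕ} (hM : S a o t v M)
    (hN : S a o t v N) {T : ℕ} (hT : T ≤ mm a) (h1 : o + T ≤ 2 ^ a) (h2 : 2 ^ a ≤ o + t) :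
    N / 2 % 2 ^ T = M / 2 % 2 ^ T := by
  obtain ⟨hL, hm⟩ := mm_spec ha
  refine (E_mod _ _ _).1 fun k hk => ?_
  have := (S_iff ha hM N).1 hN 0 (2 ^ a - 1 - k) (by omega) (by omega) (by omega)
  rwa [show min (2 ^ a - 1 - k) (2 ^ a - 1 - (2 ^ a - 1 - k)) = k by omega, bit, bit,
    if_pos (by omega), if_pos (by omega)] at this

theorem two_le_two_mul (T : ℕ) : 2 ≤ 2 * 2 ^ T := by
  have : 0 < 2 ^ T := by positivity
  omega

theorem case2 {a o t : ℕ} (v : ℕ → Bool) (ha : 3 ≤ a) (h0 : mm a + 2 ≤ o) (h1 : o ≤ 2 ^ a)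
    (h2 : 2 ^ a ≤ o + t) (h3 : o + t ≤ 2 ^ a + mm a) (ε : ℕ) :
    Reg (fun N => N % 2 = ε ∧ S a o t v N) (1 / 2) 2 := by
  by_cases hne : ∃ M, M % 2 = ε ∧ S a o t v M
  swap
  · exact (reg_empty fun n hn => hne ⟨n, hn⟩).mono (by norm_num) (by norm_num)
  obtain ⟨M, rfl, hM⟩ := hne
  obtain ⟨hL, hm⟩ := mm_spec ha
  set T := max (2 ^ a - o) (o + t - 2 ^ a) with hT
  refine (reg_univ.dil (two_le_two_mul T) (Nat.mod_lt M (by positivity))).congr fun N => ?_
  rw [and_true, mod_two_mul]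
  refine and_congr_right fun hp => ⟨fun hN => ?_, fun H => ?_⟩
  · rcases le_total (2 ^ a - o) (o + t - 2 ^ a) with c | c
    · exact (half_add hp 1 _).1 (pre_mod ha hM hN (by omega) (by omega) (by omega))
    · exact suf_mod ha hM hN (by omega) (by omega) h2
  · rw [S_iff ha hM]
    intro j i hi c1 c2
    have hj : j = 0 ∨ j = 1 := by
      by_contra hj
      have := Nat.mul_le_mul_left (2 ^ a) (by omega : 2 ≤ j)
      omega
    have hk : min i (2 ^ a - 1 - i) < T ∧ min i (2 ^ a - 1 - i) < mm a := by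
      rcases hj with rfl | rfl <;> omega
    rw [bit, bit, if_pos hk.2, if_pos hk.2]
    exact (E_mod _ _ _).2 ((half_add hp j _).2 H) _ hk.1

theorem case3 {a o t : ℕ} (v : ℕ → Bool) (ha : 3 ≤ a) (h0 : o < 2 ^ a) (h1 : 2 ^ a < o + t)
    (h2 : o ≤ mm a + 1 ∨ 2 ^ a + mm a < o + t) {J : ℕ}
    (hJ : ∀ j, j < J ↔ 2 ^ a * j + mm a < o + t) {D : ℝ} (hD : 0 ≤ D)
    (IH : ∀ o' t' v', t' ≤ J → Reg (S (mm a) o' t' v') 1 D) (ε : ℕ) :
    Reg (fun N => N % 2 = ε ∧ S a o t v N) (1 / 2) D := by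
  by_cases hne : ∃ M, M % 2 = ε ∧ S a o t v M
  swap
  · exact (reg_empty fun n hn => hne ⟨n, hn⟩).mono (by norm_num) hD
  obtain ⟨M, rfl, hM⟩ := hne
  obtain ⟨hL, hm⟩ := mm_spec ha
  obtain ⟨j1, hj1⟩ : ∃ j1, (o ≤ mm a + 1 ∧ j1 = 0) ∨ (mm a + 1 < o ∧ j1 = 1) := by
    by_cases c : o ≤ mm a + 1
    exacts [⟨0, Or.inl ⟨c, rfl⟩⟩, ⟨1, Or.inr ⟨by omega, rfl⟩⟩]
  have hJ1 : j1 < J := by
    rw [hJ]
    rcases hj1 with ⟨c, rfl⟩ | ⟨c, rfl⟩ <;> omega
  set u1 := (M % 2 + j1) / 2 with hu1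
  refine ((IH (M / 2 % 2 ^ mm a + u1) ((M % 2 + J + 1) / 2 - u1)
    (fun u => β (mm a) (M / 2 + (u1 + u))) (by omega)).dil (two_le_two_mul (mm a))
    (Nat.mod_lt M (by positivity))).congr fun N => ?_
  rw [mod_two_mul, and_assoc]
  refine and_congr_right fun hp => ?_
  have hdec : N / 2 % 2 ^ mm a = M / 2 % 2 ^ mm a → ∀ u,
      2 ^ mm a * (N / (2 * 2 ^ mm a)) + (M / 2 % 2 ^ mm a + u1 + u) = N / 2 + (u1 + u) := by
    intro H u
    have := Nat.div_add_mod (N / 2) (2 ^ mm a)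
    rw [Nat.div_div_eq_div_mul] at this
    omega
  have hc : ∀ j k, ¬ k < mm a → (bit (mm a) (N + j) k = bit (mm a) (M + j) k ↔
      β (mm a) (N / 2 + (M % 2 + j) / 2) = β (mm a) (M / 2 + (M % 2 + j) / 2)) := by
    intro j k hk
    rw [bit, bit, if_neg hk, if_neg hk, show (N + j) % 2 = (M + j) % 2 by omega,
      show (N + j) / 2 = N / 2 + (M % 2 + j) / 2 by omega,
      show (M + j) / 2 = M / 2 + (M % 2 + j) / 2 by omega, Bool.xor_right_inj]
  constructor
  · intro hN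
    have H : N / 2 % 2 ^ mm a = M / 2 % 2 ^ mm a := by
      rcases h2 with c | c
      · exact suf_mod ha hM hN le_rfl (by omega) h1.le
      · exact (half_add hp 1 _).1 (pre_mod ha hM hN le_rfl (by omega) (by omega))
    refine ⟨H, fun u hu => ?_⟩
    beta_reduce
    rw [hdec H]
    obtain ⟨j, c1, c2, c3⟩ : ∃ j, j1 ≤ j ∧ j < J ∧ (M % 2 + j) / 2 = u1 + u :=
      ⟨max j1 (2 * (u1 + u) - M % 2), by omega, by omega, by omega⟩
    rw [← c3]
    have c4 := (hJ j).1 c2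
    rcases Nat.eq_zero_or_pos j with rfl | hj
    · exact (hc 0 _ (by omega)).1
        ((S_iff ha hM N).1 hN 0 (mm a + 1) (by omega) (by omega) (by omega))
    · have := Nat.mul_le_mul_left (2 ^ a) hj
      exact (hc j _ (by omega)).1
        ((S_iff ha hM N).1 hN j (mm a) (by omega) (by omega) c4)
  · rintro ⟨H, H'⟩
    rw [S_iff ha hM]
    intro j i hi c1 c2
    by_cases hk : min i (2 ^ a - 1 - i) < mm a
    · rw [bit, bit, if_pos hk, if_pos hk]
      exact (E_mod _ _ _).2 ((half_add hp j _).2 H) _ hk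
    · rw [hc j _ hk]
      have c3 : j < J := (hJ j).2 (by omega)
      have c4 : j1 ≤ j := by
        rcases Nat.eq_zero_or_pos j with rfl | hj <;> omega
      have := H' ((M % 2 + j) / 2 - u1) (by omega)
      beta_reduce at this
      rw [hdec H] at this
      rwa [show u1 + ((M % 2 + j) / 2 - u1) = (M % 2 + j) / 2 by omega] at this

theorem reg_shift {a t : ℕ} {D : ℝ} (h : ∀ o < 2 ^ a, ∀ v, Reg (S a o t v) 1 D) (o : ℕ)
    (v : ℕ → Bool) : Reg (S a o t v) 1 D := by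
  refine ((h (o % 2 ^ a) (Nat.mod_lt _ (by positivity)) v).shift (o / 2 ^ a)).congr fun N => ?_
  have e := Nat.div_add_mod o (2 ^ a)
  refine forall₂_congr fun r _ => ?_
  rw [show 2 ^ a * (N + o / 2 ^ a) + (o % 2 ^ a + r) = 2 ^ a * N + (o + r) by
    rw [mul_add]; omega]

theorem reg_short {a t : ℕ} (ha : 3 ≤ a) (ht : t ≤ mm a) (o : ℕ) (v : ℕ → Bool) :
    Reg (S a o t v) 1 6 := by
  refine reg_shift (fun o ho v => ?_) o v
  obtain ⟨hL, hm⟩ := mm_spec ha
  by_cases c : o + t ≤ 2 ^ a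
  · exact case1 v ha c
  · exact (reg_par (case2 v ha (by omega) ho.le (by omega) (by omega) 0)
      (case2 v ha (by omega) ho.le (by omega) (by omega) 1)).mono le_rfl (by norm_num)

theorem reg_all (t : ℕ) : ∀ a, 3 ≤ a → ∀ o v, Reg (S a o t v) 1 12 := by
  induction t using Nat.strong_induction_on with
  | _ t ih =>
  intro a ha
  refine reg_shift fun o ho v => ?_
  obtain ⟨hL, hm⟩ := mm_spec ha
  by_cases c : o + t ≤ 2 ^ a
  · exact (case1 v ha c).mono le_rfl (by norm_num)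
  by_cases c' : mm a + 2 ≤ o ∧ o + t ≤ 2 ^ a + mm a
  · exact (reg_par (case2 v ha c'.1 ho.le (by omega) c'.2 0)
      (case2 v ha c'.1 ho.le (by omega) c'.2 1)).mono le_rfl (by norm_num)
  obtain ⟨J, hJ⟩ : ∃ J, ∀ j, j < J ↔ 2 ^ a * j + mm a < o + t := by
    refine ⟨(o + t + 2 ^ a - 1 - mm a) / 2 ^ a, fun j => ?_⟩
    rw [Nat.lt_iff_add_one_le, Nat.le_div_iff_mul_le (by positivity), add_mul, mul_comm j]
    omega
  by_cases c2 : o + t < 2 ^ a * 2 + mm a
  · have hJ2 : J ≤ 2 := by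
      by_contra hc
      have := (hJ 2).1 (by omega)
      omega
    have IH : ∀ o' t' v', t' ≤ J → Reg (S (mm a) o' t' v') 1 6 := fun o' t' v' h =>
      reg_short hm (by have := (mm_spec hm).2; omega) o' v'
    exact (reg_par (case3 v ha ho (by omega) (by omega) hJ (by norm_num) IH 0)
      (case3 v ha ho (by omega) (by omega) hJ (by norm_num) IH 1)).mono le_rfl (by norm_num)
  · have hJt : J < t := by
      by_contra hc
      have h1 := (hJ (t - 1)).1 (by omega)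
      obtain ⟨s, rfl⟩ : ∃ s, t = s + 2 := ⟨t - 2, by omega⟩
      rw [show s + 2 - 1 = s + 1 by omega, mul_add] at h1
      have := Nat.mul_le_mul_right s (by omega : 2 ≤ 2 ^ a)
      omega
    have IH : ∀ o' t' v', t' ≤ J → Reg (S (mm a) o' t' v') 1 12 := fun o' t' v' h =>
      ih t' (by omega) _ hm o' v'
    have hpar : ∀ N M, S a o t v N → S a o t v M → N % 2 = 0 → M % 2 = 1 → False := by
      intro N M hN hM e1 e2
      have a1 := pre_mod ha hM hN (j := 1) le_rfl (by omega) (by omega)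
      have a2 := pre_mod ha hM hN (j := 2) le_rfl (by omega) (by omega)
      rw [show (M + 2) / 2 = (M + 1) / 2 by omega, ← a1,
        show (N + 2) / 2 = (N + 1) / 2 + 1 by omega] at a2
      have a3 : 2 ^ mm a ∣ 1 :=
        (Nat.modEq_zero_iff_dvd).1 (Nat.ModEq.add_left_cancel' ((N + 1) / 2) a2)
      have a4 := Nat.le_of_dvd one_pos a3
      have a5 : 2 ^ 1 ≤ 2 ^ mm a := Nat.pow_le_pow_right two_pos (by omega)
      omega
    by_cases hex : ∃ N, N % 2 = 0 ∧ S a o t v N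
    · obtain ⟨N, e, hN⟩ := hex
      exact (reg_par (case3 v ha ho (by omega) (by omega) hJ (by norm_num) IH 0)
        ((reg_empty fun M hM => hpar N M hN hM.2 e hM.1).mono (by norm_num) le_rfl)).mono
        le_rfl (by norm_num)
    · exact (reg_par ((reg_empty fun M hM => hex ⟨M, hM⟩).mono (by norm_num) le_rfl)
        (case3 v ha ho (by omega) (by omega) hJ (by norm_num) IH 1)).mono le_rfl (by norm_num)

end Pool.Agent.H.MP_9e6215_co
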