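import Pool.Agent.H.MP_9e6215_co.B

namespace Pool.Agent.H.MP_9e6215_co

open Finset

theorem disc_all (t : ℕ) (v : ℕ → Bool) :
    ∃ δ, Disc (fun q => ind (∀ r < t, β 5 (q + r) = v r)) δ 384 := by
  have key : ∀ c ≤ 32, ∃ δ,
      Disc (fun q => ind (q % 32 < c ∧ ∀ r < t, β 5 (q + r) = v r)) δ (12 * c) := by
    intro c hc
    induction c with
    | zero => exact ⟨0, fun n0 n => by simp [ind_neg]⟩
    | succ c ih =>
      obtain ⟨δ, h⟩ := ih (by omega)
      obtain ⟨δ', h1, h2, h'⟩ := (reg_all t 5 (by norm_num) c v).dil (K := 32) (c := c)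
        (by norm_num) (by omega)
      refine ⟨δ + δ', fun n0 n => ?_⟩
      have := h.add h' n0 n
      have e : ∀ q, ind (q % 32 < c ∧ ∀ r < t, β 5 (q + r) = v r) +
          ind (q % 32 = c ∧ S 5 c t v (q / 32)) =
          ind (q % 32 < c + 1 ∧ ∀ r < t, β 5 (q + r) = v r) := by
        intro q
        rcases lt_trichotomy (q % 32) c with c1 | c1 | c1
        · rw [ind_neg (p := q % 32 = c ∧ _) (fun h => by omega), add_zero]
          exact ind_congr (and_congr_left fun _ => by omega)
        · rw [ind_neg (p := q % 32 < c ∧ _) (fun h => by omega), zero_add]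
          refine ind_congr (and_congr (by omega) (forall₂_congr fun r _ => ?_))
          rw [show 2 ^ 5 * (q / 32) + (c + r) = q + r by omega]
        · rw [ind_neg (p := q % 32 = c ∧ _) (fun h => by omega),
            ind_neg (p := q % 32 < c ∧ _) (fun h => by omega),
            ind_neg (p := q % 32 < c + 1 ∧ _) (fun h => by omega), add_zero]
      simp only [e] at this
      exact this.trans (by push_cast; linarith)
  obtain ⟨δ, h⟩ := key 32 le_rfl
  refine ⟨δ, fun n0 n => ?_⟩
  have := h n0 n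
  have e : ∀ q, ind (q % 32 < 32 ∧ ∀ r < t, β 5 (q + r) = v r) =
      ind (∀ r < t, β 5 (q + r) = v r) := fun q =>
    ind_congr (and_iff_right (Nat.mod_lt _ (by norm_num)))
  simp only [e] at this
  exact this.trans (by norm_num)

def F (x : ℕ → Bool) (n i : ℕ) : List Bool := (List.range n).map fun r => x (i + r)

theorem occ_eq (x : ℕ → Bool) (i n j t : ℕ) :
    (occ (F x n i) (F x t j) : ℝ) =
      ∑ k ∈ range (n + 1 - t), ind (∀ r < t, x (i + k + r) = x (j + r)) := by
  have e : ∀ k, k < n + 1 → (F x t j <+: (F x n i).drop k ↔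
      k + t ≤ n ∧ ∀ r < t, x (i + k + r) = x (j + r)) := by
    intro k hk
    constructor
    · intro h
      have h1 := h.length_le
      simp only [F, List.length_map, List.length_range, List.length_drop] at h1
      refine ⟨by omega, fun r hr => ?_⟩
      have h2 := h.getElem (i := r) (by simpa [F] using hr)
      simpa [F, add_assoc] using h2.symm
    · rintro ⟨h1, h2⟩
      rw [List.prefix_iff_eq_take]
      apply List.ext_getElem
      · simp [F]; omega
      · intro r c1 c2
        simp only [F, List.length_map, List.length_range] at c1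
        simpa [F, add_assoc] using (h2 r c1).symm
  have hl : (F x n i).length = n := by simp [F]
  rw [occ, card_filter, hl]
  push_cast
  symm
  refine sum_subset_zero_on_sdiff (range_mono (by omega)) (fun k hk => ?_) fun k hk => ?_
  · simp only [mem_sdiff, mem_range] at hk
    exact if_neg fun h => by have := ((e k hk.1).1 h).1; omega
  · have hk := mem_range.1 hk
    rw [← ind_congr (and_iff_right (by omega : k + t ≤ n)), ← ind_congr (e k (by omega))]
    unfold ind
    split_ifs <;> rfl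

theorem ufb : UFB (β 5) := by
  refine ⟨768, by norm_num, ?_⟩
  rintro _ ⟨j, t, rfl⟩ _ _ ⟨i, n, rfl⟩ ⟨i', n', rfl⟩ hl
  obtain rfl : n = n' := by simpa using hl
  obtain ⟨δ, h⟩ := disc_all t fun r => β 5 (j + r)
  have h1 := abs_le.1 (h i (n + 1 - t))
  have h2 := abs_le.1 (h i' (n + 1 - t))
  rw [← occ_eq] at h1 h2
  have h3 : |((occ (F (β 5) n i) (F (β 5) t j) : ℝ)) - (occ (F (β 5) n i') (F (β 5) t j) : ℝ)|
      ≤ 768 := by
    rw [abs_le]
    constructor <;> linarith [h1.1, h1.2, h2.1, h2.2]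
  exact_mod_cast h3

theorem fin_fac (x : ℕ → Bool) (n : ℕ) : {u | Factor x u ∧ u.length = n}.Finite :=
  (List.finite_length_eq Bool n).subset fun _ h => h.2

theorem F_mem (x : ℕ → Bool) (n i : ℕ) : F x n i ∈ {u | Factor x u ∧ u.length = n} :=
  ⟨⟨i, n, rfl⟩, by simp [F]⟩

theorem cpx_base {a : ℕ} (ha : 3 ≤ a) : 2 ^ mm a ≤ cpx (β a) (2 ^ a) := by
  obtain ⟨hL, hm⟩ := mm_spec ha
  have := Set.ncard_le_ncard_of_injOn (s := (range (2 ^ mm a) : Set ℕ))
    (fun n => F (β a) (2 ^ a) (2 ^ a * (2 * n))) (fun n _ => F_mem _ _ _) (by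
      intro n hn n' hn' h
      have h1 : n % 2 ^ mm a = n' % 2 ^ mm a := by
        refine (E_mod _ _ _).1 fun k hk => ?_
        have h2 := (List.map_inj_left.1 h) k (List.mem_range.2 (by omega))
        beta_reduce at h2
        rwa [β_at ha _ _ (by omega), β_at ha _ _ (by omega),
          show min k (2 ^ a - 1 - k) = k by omega, bit, bit, if_pos hk, if_pos hk,
          show 2 * n / 2 = n by omega, show 2 * n' / 2 = n' by omega] at h2
      rwa [Nat.mod_eq_of_lt (by simpa using hn), Nat.mod_eq_of_lt (by simpa using hn')] at h1)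
    (fin_fac _ _)
  rwa [Set.ncard_coe_finset, card_range] at this

theorem cpx_step {a : ℕ} (ha : 3 ≤ a) (n : ℕ) :
    cpx (β (mm a)) n ≤ cpx (β a) (2 ^ a * (2 * n)) := by
  obtain ⟨hL, hm⟩ := mm_spec ha
  refine le_trans (Set.ncard_le_ncard ?_ ((fin_fac (β a) (2 ^ a * (2 * n))).image
    fun l => (List.range n).map fun r => l.getD (2 ^ a * (2 * r) + mm a) false))
    (Set.ncard_image_le (fin_fac _ _))
  rintro _ ⟨⟨i, n', rfl⟩, hl⟩
  obtain rfl : n' = n := by simpa using hl
  refine ⟨_, F_mem (β a) _ (2 ^ a * (2 * i)), List.map_inj_left.2 fun r hr => ?_⟩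
  have hr := List.mem_range.1 hr
  have h1 : 2 ^ a * (2 * r) + mm a < 2 ^ a * (2 * n') := by
    have := Nat.mul_le_mul_left (2 ^ a) (by omega : 2 * r + 1 ≤ 2 * n')
    rw [mul_add] at this
    omega
  rw [List.getD_eq_getElem _ _ (by simpa [F] using h1)]
  simp only [F, List.getElem_map, List.getElem_range]
  rw [← add_assoc, ← mul_add, β_at ha _ _ (by omega), bit, if_neg (by omega),
    show (2 * i + 2 * r) % 2 = 0 by omega, show (2 * i + 2 * r) / 2 = i + r by omega]
  simp

theorem mm_big {a : ℕ} (ha : 5 ≤ a) : 2 * a + 2 ≤ mm a := by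
  obtain ⟨b, rfl⟩ : ∃ b, a = b + 5 := ⟨a - 5, by omega⟩
  have : b < 2 ^ b := Nat.lt_two_pow_self
  simp only [mm, show b + 5 - 1 = b + 4 by omega, pow_succ]
  omega

theorem cpx_big (d : ℕ) : ∀ a c, 5 ≤ a → c ≤ a + d → ∃ n, 1 ≤ n ∧ 2 ^ c * n ≤ cpx (β a) n := by
  induction d with
  | zero =>
    intro a c ha hc
    have := mm_big ha
    refine ⟨2 ^ a, Nat.one_le_two_pow, le_trans ?_ (cpx_base (by omega))⟩
    rw [← pow_add]
    exact Nat.pow_le_pow_right two_pos (by omega)
  | succ d ih =>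
    intro a c ha hc
    have := mm_big ha
    obtain ⟨n, h1, h2⟩ := ih (mm a) (c + a + 1) (by omega) (by omega)
    refine ⟨2 ^ a * (2 * n), Nat.mul_pos (by positivity) (by omega),
      le_trans ?_ (h2.trans (cpx_step (by omega) n))⟩
    exact le_of_eq (by ring)

theorem main : ∃ x : ℕ → Bool, UFB x ∧ ∀ C : ℕ, ∃ n, 1 ≤ n ∧ C * n < cpx x n := by
  refine ⟨β 5, ufb, fun C => ?_⟩
  obtain ⟨n, h1, h2⟩ := cpx_big C 5 C le_rfl (by omega)
  exact ⟨n, h1, lt_of_lt_of_le (Nat.mul_lt_mul_of_pos_right Nat.lt_two_pow_self h1) h2⟩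

end Pool.Agent.H.MP_9e6215_co
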