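import Mathlib

namespace Pool.Agent.H.MP_9e6215_co

variable {A : Type}

/-- `u` is a factor of the infinite word `x`. -/
def Factor (x : ℕ → A) (u : List A) : Prop :=
  ∃ i n : ℕ, u = (List.range n).map fun r => x (i + r)

open Classical in
/-- number of positions at which `w` occurs in `u` (overlaps counted). -/
noncomputable def occ (u w : List A) : ℕ :=
  ((Finset.range (u.length + 1)).filter fun k => w <+: u.drop k).card

/-- `x` is uniformly factor-balanced. -/
def UFB (x : ℕ → A) : Prop :=
  ∃ C : ℕ, 1 ≤ C ∧ ∀ w, Factor x w → ∀ u v, Factor x u → Factor x v → u.length = v.length →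
    |(occ u w : ℤ) - (occ v w : ℤ)| ≤ C

/-- factor complexity. -/
noncomputable def cpx (x : ℕ → A) (n : ℕ) : ℕ := {u | Factor x u ∧ u.length = n}.ncard

end Pool.Agent.H.MP_9e6215_co
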